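import Mathlib

namespace Pool.Agent.Results.MP_d408b2_an.NoLimit

open Filter Topology

/-- `x` (with `x n` standing for `x_{n-2}`, `n ≥ 0`) is a positive solution of
`x_{n+1} = max {A, x_n, x_{n-1}} / x_{n-2}`. -/
def IsSolution (A : ℝ) (x : ℕ → ℝ) : Prop :=
  (∀ n, 0 < x n) ∧ ∀ n, x (n + 3) = max (max A (x (n + 2))) (x (n + 1)) / x n

/-- The invariant. -/
noncomputable def V (A a b c : ℝ) : ℝ :=
  max 1 (1 / a) * max 1 (1 / b) * max 1 (1 / c) * max (max A a) (max b c)

lemma V_step {A a b c d : ℝ} (ha : 0 < a) (hb : 0 < b) (hc : 0 < c) (hA : 0 < A)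
    (hd : d = max (max A c) b / a) : V A b c d = V A a b c := by
  set m := max (max A c) b with hm
  have hm0 : 0 < m := lt_of_lt_of_le hA ((le_max_left A c).trans (le_max_left _ _))
  have hd0 : 0 < d := by rw [hd]; positivity
  have e1 : max (max A b) (max c d) = max m d := by
    rw [hm, max_assoc A b, max_left_comm b c d, ← max_assoc A c, ← max_assoc (max A c) b]
  have e2 : max (max A a) (max b c) = max m a := by
    rw [hm]
    ac_rfl
  have key : max 1 (1 / d) * max m d = max 1 (1 / a) * max m a := by
    have h1 : max m d = m * max 1 (1 / a) := by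
      rw [mul_max_of_nonneg _ _ hm0.le, mul_one, hd]
      congr 1; ring
    have h2 : m * max 1 (1 / d) = max m a := by
      rw [mul_max_of_nonneg _ _ hm0.le, mul_one, hd]
      congr 1; field_simp
    rw [h1, ← h2]; ring
  unfold V
  rw [e1, e2]
  calc max 1 (1 / b) * max 1 (1 / c) * max 1 (1 / d) * max m d
      = max 1 (1 / b) * max 1 (1 / c) * (max 1 (1 / d) * max m d) := by ring
    _ = _ := by rw [key]; ring

lemma V_one {A a b c : ℝ} (ha : 0 < a) (hb : 0 < b) (hc : 0 < c) (h : V A a b c ≤ 1) :
    a = 1 ∧ b = 1 ∧ c = 1 := by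
  unfold V at h
  have p1 : 1 ≤ max 1 (1 / a) := le_max_left _ _
  have p2 : 1 ≤ max 1 (1 / b) := le_max_left _ _
  have p3 : 1 ≤ max 1 (1 / c) := le_max_left _ _
  have q1 : 1 / a ≤ max 1 (1 / a) := le_max_right _ _
  have q2 : 1 / b ≤ max 1 (1 / b) := le_max_right _ _
  have q3 : 1 / c ≤ max 1 (1 / c) := le_max_right _ _
  set M := max (max A a) (max b c) with hM
  have ma : a ≤ M := (le_max_right A a).trans (le_max_left _ _)
  have mb : b ≤ M := (le_max_left b c).trans (le_max_right _ _)
  have mc : c ≤ M := (le_max_right b c).trans (le_max_right _ _)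
  have hM0 : 0 < M := ha.trans_le ma
  have r1 : 1 ≤ max 1 (1 / a) * max 1 (1 / b) := by nlinarith
  have r2 : 1 ≤ max 1 (1 / a) * max 1 (1 / b) * max 1 (1 / c) := by nlinarith
  have hM1 : M ≤ 1 := by nlinarith
  have s1 : 1 / a * (1 / b) * (1 / c) ≤ max 1 (1 / a) * max 1 (1 / b) * max 1 (1 / c) := by
    gcongr
  have s2 : 1 / a * (1 / b) * (1 / c) * M ≤ 1 :=
    (mul_le_mul_of_nonneg_right s1 hM0.le).trans h
  have s3 : M ≤ a * b * c := by
    have : 1 / a * (1 / b) * (1 / c) * M = M / (a * b * c) := by field_simp
    rw [this, div_le_one (by positivity)] at s2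
    exact s2
  have ha1 := ma.trans hM1
  have hb1 := mb.trans hM1
  have hc1 := mc.trans hM1
  have t1 : 1 ≤ b * c := by
    have : a * 1 ≤ a * (b * c) := by
      have e : a * (b * c) = a * b * c := by ring
      rw [e, mul_one]; exact ma.trans s3
    exact le_of_mul_le_mul_left this ha
  have t2 : 1 ≤ a * c := by
    have : b * 1 ≤ b * (a * c) := by
      have e : b * (a * c) = a * b * c := by ring
      rw [e, mul_one]; exact mb.trans s3
    exact le_of_mul_le_mul_left this hb
  refine ⟨?_, ?_, ?_⟩ <;> nlinarith

/-- Q1 (Grove–Ladas): for every `A > 0`, a positive solution which has a (finite) limit is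
constant. -/
theorem result (A : ℝ) (hA : 0 < A) (x : ℕ → ℝ) (hx : IsSolution A x) (l : ℝ)
    (hl : Tendsto x atTop (𝓝 l)) : ∀ n, x n = x 0 := by
  obtain ⟨hpos, hrec⟩ := hx
  have hl0 : 0 ≤ l := ge_of_tendsto hl (Eventually.of_forall fun n => (hpos n).le)
  have hs : ∀ k, Tendsto (fun n => x (n + k)) atTop (𝓝 l) := fun k =>
    hl.comp (tendsto_add_atTop_nat k)
  have hprod : ∀ n, x (n + 3) * x n = max (max A (x (n + 2))) (x (n + 1)) := by
    intro n
    rw [hrec n, div_mul_cancel₀ _ (hpos n).ne']
  have hlim : l * l = max (max A l) l := by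
    have h1 : Tendsto (fun n => x (n + 3) * x n) atTop (𝓝 (l * l)) := (hs 3).mul hl
    have h2 : Tendsto (fun n => max (max A (x (n + 2))) (x (n + 1))) atTop
        (𝓝 (max (max A l) l)) := (tendsto_const_nhds.max (hs 2)).max (hs 1)
    exact tendsto_nhds_unique (h1.congr hprod) h2
  have hlpos : 0 < l := by
    rcases hl0.lt_or_eq with h | h
    · exact h
    · rw [← h] at hlim
      have : A ≤ max (max A 0) 0 := (le_max_left A 0).trans (le_max_left _ _)
      linarith
  rcases le_or_gt A 1 with hA1 | hA1
  · -- `A ≤ 1`: the limit is `1` and the invariant equals `1`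
    have hl1 : l = 1 := by
      rcases le_total A l with h | h
      · rw [max_eq_right h, max_self] at hlim
        exact mul_left_cancel₀ hlpos.ne' (by linarith)
      · rw [max_eq_left h, max_eq_left h] at hlim
        nlinarith
    have hV : ∀ n, V A (x n) (x (n + 1)) (x (n + 2)) = V A (x 0) (x 1) (x 2) := by
      intro n
      induction n with
      | zero => rfl
      | succ n ih => rw [← ih]; exact V_step (hpos _) (hpos _) (hpos _) hA (hrec n)
    have hVlim : Tendsto (fun n => V A (x n) (x (n + 1)) (x (n + 2))) atTop (𝓝 1) := by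
      have hi : ∀ k, Tendsto (fun n => max 1 (1 / x (n + k))) atTop (𝓝 (max 1 (1 / 1))) := by
        intro k
        have := (hs k)
        rw [hl1] at this
        exact tendsto_const_nhds.max (tendsto_const_nhds.div this one_ne_zero)
      have hj : Tendsto (fun n => max (max A (x n)) (max (x (n + 1)) (x (n + 2)))) atTop
          (𝓝 (max (max A 1) (max 1 1))) := by
        have h0 := hl
        have h1 := hs 1
        have h2 := hs 2
        rw [hl1] at h0 h1 h2
        exact (tendsto_const_nhds.max h0).max (h1.max h2)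
      have := (((hi 0).mul (hi 1)).mul (hi 2)).mul hj
      have e : max 1 (1 / 1) * max 1 (1 / 1) * max 1 (1 / 1) * max (max A 1) (max 1 1) =
          (1 : ℝ) := by
        rw [max_eq_right hA1]; norm_num
      rw [e] at this
      exact this
    have hc : V A (x 0) (x 1) (x 2) = 1 :=
      tendsto_nhds_unique (tendsto_const_nhds.congr fun n => (hV n).symm) hVlim
    intro n
    have h1 := (V_one (hpos n) (hpos (n + 1)) (hpos (n + 2)) (by rw [hV n, hc])).1
    have h2 := (V_one (hpos 0) (hpos 1) (hpos 2) (le_of_eq hc)).1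
    rw [h1, h2]
  · -- `A > 1`: the limit is `√A`, and the solution is eventually periodic
    have hlA : l < A := by
      by_contra h
      rw [not_lt] at h
      rw [max_eq_right h, max_self] at hlim
      have : l = 1 := mul_left_cancel₀ hlpos.ne' (by linarith)
      linarith
    have hll : l * l = A := by rw [hlim, max_eq_left hlA.le, max_eq_left hlA.le]
    obtain ⟨N, hN⟩ := eventually_atTop.mp (hl.eventually (gt_mem_nhds hlA))
    have hper : ∀ n, N ≤ n → x (n + 3) * x n = A := by
      intro n hn
      rw [hprod n, max_eq_left (hN (n + 2) (by omega)).le, max_eq_left (hN (n + 1) (by omega)).le]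
    have hconst : ∀ n, N ≤ n → x n = l := by
      intro n hn
      have h6 : ∀ k : ℕ, x (n + 6 * k) = x n := by
        intro k
        induction k with
        | zero => rfl
        | succ k ih =>
          have e1 := hper (n + 6 * k) (by omega)
          have e2 := hper (n + 6 * k + 3) (by omega)
          have e3 : x (n + 6 * k + 3 + 3) * x (n + 6 * k + 3) = x (n + 6 * k) *
              x (n + 6 * k + 3) := by rw [e2, mul_comm, e1]
          have e4 := mul_right_cancel₀ (hpos _).ne' e3
          rw [show n + 6 * (k + 1) = n + 6 * k + 3 + 3 by ring, e4, ih]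
      have h7 : Tendsto (fun k : ℕ => x (n + 6 * k)) atTop (𝓝 l) := by
        refine hl.comp (tendsto_atTop_mono (fun k => ?_) tendsto_id)
        simp only [id]; omega
      exact tendsto_nhds_unique (tendsto_const_nhds.congr fun k => (h6 k).symm) h7
    -- go back to the beginning
    have hback : ∀ k, ∀ n, N ≤ n + k → x n = l := by
      intro k
      induction k with
      | zero => intro n hn; exact hconst n hn
      | succ k ih =>
        intro n hn
        have e1 := ih (n + 1) (by omega)
        have e2 := ih (n + 2) (by omega)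
        have e3 := ih (n + 3) (by omega)
        have e4 := hprod n
        rw [e1, e2, e3, max_eq_left hlA.le, max_eq_left hlA.le, ← hll] at e4
        exact mul_left_cancel₀ hlpos.ne' e4
    intro n
    rw [hback N n (by omega), hback N 0 (by omega)]

end Pool.Agent.Results.MP_d408b2_an.NoLimit
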